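import Pool.Agent.MP_fcd29e_an.H11.CS

/-! The boundary inequalities of the cell function. -/

set_option autoImplicit false

namespace Pool.Agent.MP_fcd29e_an.H29

open Pool.Agent.MP_fcd29e_an.H11

namespace CC2

theorem tay (y : ℝ) (hy : 0 < y) : (y ^ 20)⁻¹ = 1 - 20 * (y - 1) +
    (y - 1) ^ 2 * ∑ j ∈ Finset.range 20, (20 - (j : ℝ)) * (y⁻¹) ^ (j + 1) := by
  obtain ⟨x, hx, rfl⟩ : ∃ x : ℝ, x ≠ 0 ∧ y = x⁻¹ := ⟨y⁻¹, (inv_pos.2 hy).ne', (inv_inv y).symm⟩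
  simp only [Finset.sum_range_succ, Finset.sum_range_zero, inv_inv, inv_pow]
  push_cast
  field_simp
  ring

theorem low (y : ℝ) (hy : 0 < y) : 1 - 20 * (y - 1) ≤ (y ^ 20)⁻¹ := by
  rw [tay y hy]
  refine le_add_of_nonneg_right (mul_nonneg (sq_nonneg _) (Finset.sum_nonneg fun j hj => ?_))
  have : (j : ℝ) ≤ 20 := by exact_mod_cast (Finset.mem_range.1 hj).le
  exact mul_nonneg (by linarith) (by positivity)

theorem up (y M : ℝ) (hy : 0 < y) (hM : 1 ≤ M) (h : y⁻¹ ≤ M) :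
    (y ^ 20)⁻¹ ≤ 1 - 20 * (y - 1) + (y - 1) ^ 2 * (210 * M ^ 20) := by
  rw [tay y hy]
  refine add_le_add_right (mul_le_mul_of_nonneg_left ?_ (sq_nonneg _)) _
  have h1 : ∑ j ∈ Finset.range 20, (20 - (j : ℝ)) * M ^ 20 = 210 * M ^ 20 := by
    rw [← Finset.sum_mul]
    simp only [Finset.sum_range_succ, Finset.sum_range_zero]
    norm_num
  rw [← h1]
  refine Finset.sum_le_sum fun j hj => ?_
  have hj' := Finset.mem_range.1 hj
  have : (j : ℝ) ≤ 20 := by exact_mod_cast hj'.le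
  exact mul_le_mul_of_nonneg_left ((pow_le_pow_left₀ (by positivity) h _).trans
    (pow_le_pow_right₀ hM hj')) (by linarith)

theorem pos {c S a₁ a₂ co si : ℝ} (h : c ^ 2 - S ^ 2 = 1) (hc : 0 < c) (hS : 1 ≤ S)
    (ha : a₁ ^ 2 + a₂ ^ 2 ≤ 1) (hcs : co ^ 2 + si ^ 2 = 1) :
    1 / (4 * c ^ 2) ≤ 1 + (1 - co) * (S ^ 2 - c * S * a₁) + S * si * a₂ := by
  have hSc : S < c := by nlinarith
  have a1 : a₁ ≤ 1 := by nlinarith
  have h1 : c - S ≤ c - S * a₁ := by nlinarith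
  have h2 : (co * (c * a₁ - S) + si * a₂) ^ 2 ≤ (c - S * a₁) ^ 2 := by
    have e1 : (co * (c * a₁ - S) + si * a₂) ^ 2 + (si * (c * a₁ - S) - co * a₂) ^ 2
        = (c * a₁ - S) ^ 2 + a₂ ^ 2 := by
      linear_combination ((c * a₁ - S) ^ 2 + a₂ ^ 2) * hcs
    have e2 : (c - S * a₁) ^ 2 = (c * a₁ - S) ^ 2 + (1 - a₁ ^ 2) := by
      linear_combination (1 - a₁ ^ 2) * h
    nlinarith [sq_nonneg (si * (c * a₁ - S) - co * a₂)]
  have h3 := (abs_le_of_sq_le_sq' h2 (by linarith)).1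
  have h4 : 1 + (1 - co) * (S ^ 2 - c * S * a₁) + S * si * a₂
      = c * (c - S * a₁) + S * (co * (c * a₁ - S) + si * a₂) := by linear_combination -h
  have h5 : (c - S) * (c - S) ≤ c * (c - S * a₁) + S * (co * (c * a₁ - S) + si * a₂) := by
    have := mul_le_mul_of_nonneg_left h3 (by linarith : (0 : ℝ) ≤ S)
    have := mul_le_mul_of_nonneg_left h1 (by linarith : (0 : ℝ) ≤ c - S)
    linarith
  rw [h4]
  refine le_trans ?_ h5
  rw [div_le_iff₀ (by positivity)]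
  have h6 : 1 ≤ (c - S) * (2 * c) := by nlinarith
  nlinarith

theorem good {P β d : ℝ} (d0 : 0 ≤ d) (d2 : d ≤ 2) (hP : 9 / 10 * d ≤ P) (hβ : 400 * β ^ 2 ≤ P) :
    ((1 + P + β) ^ 20)⁻¹ + ((1 + P - β) ^ 20)⁻¹ ≤ 2 * (1 - d / 8) := by
  have P0 : 0 ≤ P := by linarith
  have a0 : 0 < 1 + P := by linarith
  obtain ⟨w, rfl⟩ : ∃ w, β = (1 + P) * w := ⟨β / (1 + P), by field_simp⟩
  have w1 : 400 * w ^ 2 ≤ P := by
    have : w ^ 2 ≤ ((1 + P) * w) ^ 2 := by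
      rw [mul_pow]
      exact le_mul_of_one_le_left (sq_nonneg _) (by nlinarith)
    linarith
  have w2 : w ^ 2 ≤ (1 / 40) ^ 2 := by
    have h1 : 4 * P * w ^ 2 ≤ (1 + P) ^ 2 * w ^ 2 :=
      mul_le_mul_of_nonneg_right (by nlinarith [sq_nonneg (1 - P)]) (sq_nonneg _)
    rw [mul_pow] at hβ
    rcases P0.eq_or_lt with h | h
    · nlinarith
    · by_contra hn
      have := mul_lt_mul_of_pos_left (not_le.1 hn) h
      nlinarith
  obtain ⟨w3, w4⟩ := abs_le_of_sq_le_sq' w2 (by norm_num)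
  have u1 := up (1 + w) (40 / 39) (by linarith) (by norm_num) (by
    rw [inv_le_comm₀ (by linarith) (by norm_num)]; norm_num; linarith)
  have u2 := up (1 - w) (40 / 39) (by linarith) (by norm_num) (by
    rw [inv_le_comm₀ (by linarith) (by norm_num)]; norm_num; linarith)
  have u3 : (210 : ℝ) * (40 / 39) ^ 20 ≤ 400 := by norm_num
  have u4 := mul_le_mul_of_nonneg_left u3 (sq_nonneg w)
  have u5 : ((1 + w) ^ 20)⁻¹ + ((1 - w) ^ 20)⁻¹ ≤ 2 * (1 + P) := by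
    have e1 : (1 + w - 1) ^ 2 = w ^ 2 := by ring
    have e2 : (1 - w - 1) ^ 2 = w ^ 2 := by ring
    rw [e1] at u1
    rw [e2] at u2
    linarith
  have e1 : 1 + P + (1 + P) * w = (1 + P) * (1 + w) := by ring
  have e2 : 1 + P - (1 + P) * w = (1 + P) * (1 - w) := by ring
  rw [e1, e2, mul_pow, mul_pow, mul_inv, mul_inv, ← mul_add]
  refine (mul_le_mul_of_nonneg_left u5 (by positivity)).trans ?_
  rw [inv_mul_le_iff₀ (by positivity)]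
  have b1 : 1 + 19 * P ≤ (1 + P) ^ 19 := by
    have := one_add_mul_le_pow (a := P) (by linarith) 19
    exact_mod_cast this
  have b2 : 1 ≤ (1 + P) ^ 19 * (1 - d / 8) :=
    le_trans (by nlinarith) (mul_le_mul_of_nonneg_right b1 (by linarith))
  have b3 := mul_le_mul_of_nonneg_left b2 a0.le
  have b4 : (1 + P) ^ 20 * (2 * (1 - d / 8)) = 2 * ((1 + P) * ((1 + P) ^ 19 * (1 - d / 8))) := by
    ring
  rw [b4]
  linarith

theorem upper {c d α β : ℝ} (c1 : 1 ≤ c) (d0 : 0 ≤ d) (d2 : d ≤ 2)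
    (p1 : 1 / (4 * c ^ 2) ≤ α + β) (p2 : 1 / (4 * c ^ 2) ≤ α - β)
    (t3 : α - 1 ≤ 2 * c ^ 2 * d) (t4 : -(2 * c ^ 2 * d) ≤ α - 1) (s2 : β ^ 2 ≤ 2 * c ^ 4 * d) :
    ((α + β) ^ 20)⁻¹ + ((α - β) ^ 20)⁻¹ ≤ 2 * (1 + (40 + 2100 * 4 ^ 20) * c ^ 48 * d) := by
  have q0 : 0 < 1 / (4 * c ^ 2) := by positivity
  have q1 : 0 < α + β := q0.trans_le p1
  have q2 : 0 < α - β := q0.trans_le p2
  have m1 : 1 ≤ 4 * c ^ 2 := by nlinarith
  have s1 : (α - 1) ^ 2 ≤ 8 * c ^ 4 * d := by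
    have h1 : (α - 1) ^ 2 ≤ (2 * c ^ 2 * d) ^ 2 := sq_le_sq' t4 t3
    have h2 : c ^ 4 * d * d ≤ c ^ 4 * d * 2 := mul_le_mul_of_nonneg_left d2 (by positivity)
    have h3 : (2 * c ^ 2 * d) ^ 2 = 4 * (c ^ 4 * d * d) := by ring
    linarith
  have s3 : (α + β - 1) ^ 2 + (α - β - 1) ^ 2 ≤ 20 * c ^ 4 * d := by
    have : (α + β - 1) ^ 2 + (α - β - 1) ^ 2 = 2 * (α - 1) ^ 2 + 2 * β ^ 2 := by ring
    linarith
  have u1 := up _ (4 * c ^ 2) q1 m1 (by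
    rw [inv_le_comm₀ q1 (by positivity), ← one_div]; exact p1)
  have u2 := up _ (4 * c ^ 2) q2 m1 (by
    rw [inv_le_comm₀ q2 (by positivity), ← one_div]; exact p2)
  have s4 := mul_le_mul_of_nonneg_right s3 (by positivity : (0 : ℝ) ≤ 210 * (4 * c ^ 2) ^ 20)
  have s5 : 20 * c ^ 4 * d * (210 * (4 * c ^ 2) ^ 20) = 4200 * 4 ^ 20 * (c ^ 44 * d) := by ring
  have s6 : c ^ 44 * d ≤ c ^ 48 * d :=
    mul_le_mul_of_nonneg_right (pow_le_pow_right₀ c1 (by norm_num)) d0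
  have c2 : c ^ 2 * d ≤ c ^ 48 * d :=
    mul_le_mul_of_nonneg_right (pow_le_pow_right₀ c1 (by norm_num)) d0
  rw [s5, add_mul] at s4
  have s7 : (40 + 2100 * 4 ^ 20) * c ^ 48 * d = (40 + 2100 * 4 ^ 20) * (c ^ 48 * d) := by ring
  have s8 : 2 * c ^ 2 * d = 2 * (c ^ 2 * d) := by ring
  rw [s7]
  rw [s8] at t4
  generalize (α + β - 1) ^ 2 * (210 * (4 * c ^ 2) ^ 20) = X at *
  generalize (α - β - 1) ^ 2 * (210 * (4 * c ^ 2) ^ 20) = Y at *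
  generalize ((α + β) ^ 20)⁻¹ = U at *
  generalize ((α - β) ^ 20)⁻¹ = W at *
  linarith

theorem lower {c d α β : ℝ} (c1 : 1 ≤ c) (d0 : 0 ≤ d) (q1 : 0 < α + β) (q2 : 0 < α - β)
    (t3 : α - 1 ≤ 2 * c ^ 2 * d) :
    2 * (1 - (40 + 2100 * 4 ^ 20) * c ^ 48 * d) ≤ ((α + β) ^ 20)⁻¹ + ((α - β) ^ 20)⁻¹ := by
  have h1 := low _ q1
  have h2 := low _ q2
  have c2 : c ^ 2 * d ≤ c ^ 48 * d :=
    mul_le_mul_of_nonneg_right (pow_le_pow_right₀ c1 (by norm_num)) d0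
  have c3 : 0 ≤ c ^ 48 * d := by positivity
  have s7 : (40 + 2100 * 4 ^ 20) * c ^ 48 * d = (40 + 2100 * 4 ^ 20) * (c ^ 48 * d) := by ring
  have s8 : 2 * c ^ 2 * d = 2 * (c ^ 2 * d) := by ring
  rw [s7]
  rw [s8] at t3
  generalize ((α + β) ^ 20)⁻¹ = U at *
  generalize ((α - β) ^ 20)⁻¹ = W at *
  linarith

theorem slope {c S a : ℝ} (h : c ^ 2 - S ^ 2 = 1) (hc : 0 < c) (hS : 1 ≤ S) :
    (a ^ 2 ≤ 1 → S ^ 2 - c * S * a ≤ 2 * c ^ 2 ∧ -(2 * c ^ 2) ≤ S ^ 2 - c * S * a) ∧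
    (a ^ 2 ≤ (1 / 30) ^ 2 → 9 / 10 * S ^ 2 ≤ S ^ 2 - c * S * a) := by
  have hSc : S < c := by nlinarith
  have cS : 0 ≤ c * S := by positivity
  have cS2 : c * S ≤ c ^ 2 := by nlinarith
  refine ⟨fun ha => ?_, fun ha => ?_⟩
  · obtain ⟨a1, a2⟩ := abs_le_of_sq_le_sq' (a := a) (b := 1) (by linarith) zero_le_one
    have h1 := mul_le_mul_of_nonneg_left a1 cS
    have h2 := mul_le_mul_of_nonneg_left a2 cS
    have h3 := sq_nonneg S
    constructor <;> linarith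
  · obtain ⟨-, g1⟩ := abs_le_of_sq_le_sq' ha (by norm_num)
    have g2 : c ≤ 3 / 2 * S := by nlinarith
    have h1 := mul_le_mul_of_nonneg_left g1 cS
    nlinarith

end CC2

theorem sc2 : SC2 := by
  refine ⟨1 / 30, 40 + 2100 * 4 ^ 20, by norm_num, by norm_num, ?_⟩
  intro c S a₁ a₂ co si α β h hc hS ha hcs hα hβ
  have p1 : 1 / (4 * c ^ 2) ≤ α + β := by rw [hα, hβ]; exact CC2.pos h hc hS ha hcs
  have p2 : 1 / (4 * c ^ 2) ≤ α - β := by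
    have := CC2.pos (co := co) (si := -si) h hc hS ha (by rw [neg_sq]; exact hcs)
    rw [hα, hβ]
    linarith
  have q0 : 0 < 1 / (4 * c ^ 2) := by positivity
  have c1 : 1 ≤ c := by nlinarith
  have n1 := sq_nonneg a₁
  have n2 := sq_nonneg a₂
  obtain ⟨co1, co2⟩ := abs_le_of_sq_le_sq' (a := co) (b := 1)
    (by linarith [sq_nonneg si]) zero_le_one
  obtain ⟨k1, k2⟩ := CC2.slope (a := a₁) h hc hS
  obtain ⟨t1, t2⟩ := k1 (by linarith)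
  have hsi : si ^ 2 ≤ 2 * (1 - co) := by nlinarith [sq_nonneg (1 - co)]
  obtain ⟨d, hd⟩ : ∃ d, d = 1 - co := ⟨_, rfl⟩
  rw [← hd] at hα hsi ⊢
  have d0 : 0 ≤ d := by linarith
  have d2 : d ≤ 2 := by linarith
  have t3 : α - 1 ≤ 2 * c ^ 2 * d := by
    have := mul_le_mul_of_nonneg_left t1 d0
    linarith
  have t4 : -(2 * c ^ 2 * d) ≤ α - 1 := by
    have := mul_le_mul_of_nonneg_left t2 d0
    linarith
  have b1 : β ^ 2 ≤ S ^ 2 * (2 * d) * a₂ ^ 2 := by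
    rw [hβ, mul_pow, mul_pow]
    exact mul_le_mul_of_nonneg_right (mul_le_mul_of_nonneg_left hsi (sq_nonneg _)) (sq_nonneg _)
  refine ⟨p1, p2, CC2.lower c1 d0 (q0.trans_le p1) (q0.trans_le p2) t3,
    CC2.upper c1 d0 d2 p1 p2 t3 t4 ?_, fun hη => ?_⟩
  · have h1 : S ^ 2 * (2 * d) * a₂ ^ 2 ≤ S ^ 2 * (2 * d) * 1 :=
      mul_le_mul_of_nonneg_left (by linarith) (by positivity)
    have h2 : S ^ 2 ≤ c ^ 4 :=
      le_trans (by linarith) (pow_le_pow_right₀ c1 (by norm_num : 2 ≤ 4))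
    have h3 := mul_le_mul_of_nonneg_right h2 d0
    linarith
  · have g4 := mul_le_mul_of_nonneg_left (k2 (by linarith)) d0
    have g5 : d ≤ S ^ 2 * d := le_mul_of_one_le_left d0 (one_le_pow₀ hS)
    have g6 : S ^ 2 * (2 * d) * a₂ ^ 2 ≤ S ^ 2 * (2 * d) * (1 / 30) ^ 2 :=
      mul_le_mul_of_nonneg_left (by linarith) (by positivity)
    have := CC2.good (P := α - 1) (β := β) d0 d2 (by linarith) (by linarith)
    rwa [add_sub_cancel] at this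

end Pool.Agent.MP_fcd29e_an.H29
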