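import Pool.Agent.MP_fcd29e_an.H31.Spec3

/-!
Multiplication by a test function is bounded on Sobolev spaces of negative order.
-/

set_option autoImplicit false

open MeasureTheory Complex Set Filter Topology Metric Pool.Agent.MP_fcd29e_an.H81
  Pool.Agent.MP_fcd29e_an.H31
open scoped ContDiff ComplexConjugate ENNReal NNReal FourierTransform SchwartzMap

namespace Pool.Agent.MP_fcd29e_an.H29

noncomputable section

variable {N : ℕ}

theorem tst_int {ψ : E N → ℂ} (h : Tst ψ) : Integrable ψ :=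
  h.1.continuous.integrable_of_hasCompactSupport h.2

/-- The Fourier transform of a product. -/
theorem fourier_mul {χ ψ : E N → ℂ} (hχ : Tst χ) (hψ : Tst ψ) (hF : Integrable (𝓕 χ)) (ξ : E N) :
    𝓕 (fun y => χ y * ψ y) ξ = ∫ y, 𝓕 χ (ξ - y) * 𝓕 ψ y := by
  have h1 : ∀ x, χ x = ∫ η, 𝐞 (inner ℝ η x) • 𝓕 χ η := fun x => by
    rw [← Real.fourierInv_eq, hχ.1.continuous.fourierInv_fourier_eq (tst_int hχ) hF]
  have h2 : Integrable (Function.uncurry fun (x η : E N) =>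
      𝓕 χ η * (𝐞 (-inner ℝ x (ξ - η)) • ψ x)) (volume.prod volume) := by
    refine ((tst_int hψ).norm.mul_prod hF.norm).mono' ?_ (Eventually.of_forall fun p => ?_)
    · refine (hF.aestronglyMeasurable.comp_snd).mul (Continuous.aestronglyMeasurable ?_)
      have := hψ.1.continuous
      have h3 : Continuous fun p : E N × E N => -inner ℝ p.1 (ξ - p.2) := by fun_prop
      exact (Real.continuous_fourierChar.comp h3).smul (this.comp continuous_fst)
    · simp only [Function.uncurry, norm_mul, Circle.norm_smul]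
      rw [mul_comm]
  rw [← integral_sub_left_eq_self _ volume ξ]
  simp only [sub_sub_cancel]
  calc 𝓕 (fun y => χ y * ψ y) ξ
      = ∫ x, ∫ η, 𝓕 χ η * (𝐞 (-inner ℝ x (ξ - η)) • ψ x) := by
        rw [Real.fourier_eq]
        refine integral_congr_ae (Eventually.of_forall fun x => ?_)
        simp only
        rw [h1 x, ← integral_mul_const, Circle.smul_def, ← integral_smul]
        refine integral_congr_ae (Eventually.of_forall fun η => ?_)
        simp only
        rw [inner_sub_right, neg_sub', sub_neg_eq_add, AddChar.map_add_eq_mul, real_inner_comm x η]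
        simp only [Circle.smul_def, smul_eq_mul, Circle.coe_mul]
        ring
    _ = ∫ η, ∫ x, 𝓕 χ η * (𝐞 (-inner ℝ x (ξ - η)) • ψ x) := integral_integral_swap h2
    _ = ∫ η, 𝓕 χ η * 𝓕 ψ (ξ - η) := by
        refine integral_congr_ae (Eventually.of_forall fun η => ?_)
        simp only
        rw [integral_const_mul, Real.fourier_eq ψ]

theorem peetre {s : ℝ} (hs : 0 ≤ s) (ξ y : E N) :
    (1 + ‖ξ‖ ^ 2) ^ (-(s / 2)) ≤
      2 ^ (s / 2) * ((1 + ‖ξ - y‖ ^ 2) ^ (s / 2) * (1 + ‖y‖ ^ 2) ^ (-(s / 2))) := by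
  have h1 : ‖y‖ ≤ ‖ξ‖ + ‖ξ - y‖ := by
    have := norm_sub_le ξ (ξ - y)
    rwa [sub_sub_cancel] at this
  have h2 : 1 + ‖y‖ ^ 2 ≤ 2 * ((1 + ‖ξ - y‖ ^ 2) * (1 + ‖ξ‖ ^ 2)) := by
    have h3 := pow_le_pow_left₀ (norm_nonneg y) h1 2
    nlinarith [sq_nonneg (‖ξ‖ - ‖ξ - y‖), mul_nonneg (sq_nonneg ‖ξ‖) (sq_nonneg ‖ξ - y‖)]
  have h3 := Real.rpow_le_rpow (by positivity) h2 (show 0 ≤ s / 2 by positivity)
  rw [Real.mul_rpow (by positivity) (by positivity), Real.mul_rpow (by positivity) (by positivity)]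
    at h3
  rw [Real.rpow_neg (by positivity), Real.rpow_neg (by positivity), ← mul_assoc,
    le_mul_inv_iff₀ (by positivity), inv_mul_le_iff₀ (by positivity)]
  linarith [mul_comm ((1 + ‖ξ‖ ^ 2) ^ (s / 2)) (2 ^ (s / 2) * (1 + ‖ξ - y‖ ^ 2) ^ (s / 2)),
    mul_assoc ((2 : ℝ) ^ (s / 2)) ((1 + ‖ξ - y‖ ^ 2) ^ (s / 2)) ((1 + ‖ξ‖ ^ 2) ^ (s / 2))]

theorem wt_cont (a : ℝ) : Continuous fun y : E N => (1 + ‖y‖ ^ 2) ^ a :=
  Continuous.rpow_const (by fun_prop) fun y => Or.inl (by positivity)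

theorem ker_int (h : StmtFA) (h' : StmtFB) {χ : E N → ℂ} (hχ : Tst χ) {s : ℝ} (hs : 0 ≤ s) :
    Integrable fun η : E N => (1 + ‖η‖ ^ 2) ^ (s / 2) * ‖𝓕 χ η‖ := by
  obtain ⟨C, hC⟩ := (h N χ hχ).2.2.2.2.1 (⌈s⌉₊ + (Module.finrank ℝ (E N) + 1))
  have hI := (integrable_one_add_norm (E := E N) (μ := volume)
    (r := ((Module.finrank ℝ (E N) + 1 : ℕ) : ℝ)) (by push_cast; linarith)).const_mul C
  refine hI.mono' ((wt_cont _).mul (h' N χ (tst_int hχ)).1.norm).aestronglyMeasurable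
    (Eventually.of_forall fun η => ?_)
  have hp : 0 < 1 + ‖η‖ := by positivity
  have h1 : (1 + ‖η‖ ^ 2) ^ (s / 2) ≤ (1 + ‖η‖) ^ ⌈s⌉₊ := by
    calc (1 + ‖η‖ ^ 2) ^ (s / 2) ≤ ((1 + ‖η‖) ^ 2) ^ (s / 2) :=
          Real.rpow_le_rpow (by positivity) (by nlinarith [norm_nonneg η]) (by positivity)
      _ = (1 + ‖η‖) ^ s := by
          rw [← Real.rpow_natCast, ← Real.rpow_mul hp.le]
          congr 1
          push_cast
          ring
      _ ≤ (1 + ‖η‖) ^ (⌈s⌉₊ : ℝ) :=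
          Real.rpow_le_rpow_of_exponent_le (by linarith [norm_nonneg η]) (Nat.le_ceil s)
      _ = (1 + ‖η‖) ^ ⌈s⌉₊ := Real.rpow_natCast _ _
  rw [Real.norm_of_nonneg (by positivity), Real.rpow_neg hp.le, Real.rpow_natCast]
  refine (mul_le_mul h1 (hC η) (norm_nonneg _) (by positivity)).trans (le_of_eq ?_)
  rw [pow_add]
  field_simp

theorem mul (_L : Lv0) (h : StmtFA) (h' : StmtFB) : StmtMUL := by
  intro N s hs χ hχ
  have hk := ker_int h h' hχ hs
  have hF : Integrable (𝓕 χ) := by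
    refine hk.mono' (h' N χ (tst_int hχ)).1.aestronglyMeasurable (Eventually.of_forall fun η => ?_)
    exact le_mul_of_one_le_left (norm_nonneg _)
      (Real.one_le_rpow (by nlinarith [sq_nonneg ‖η‖]) (by positivity))
  set k : E N → ℂ := fun η => (((1 + ‖η‖ ^ 2) ^ (s / 2) * ‖𝓕 χ η‖ : ℝ) : ℂ) with hkd
  have hk' : Integrable k := hk.ofReal
  refine ⟨Real.toNNReal ((2 ^ (s / 2)) ^ 2) * Real.toNNReal ((∫ y, ‖k y‖) ^ 2), fun ψ hψ => ?_⟩
  obtain ⟨hc, hb, -⟩ := h' N ψ (tst_int hψ)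
  set G : E N → ℝ := fun y => (1 + ‖y‖ ^ 2) ^ (-(s / 2)) * ‖𝓕 ψ y‖ with hG
  have hGc : Continuous G := (wt_cont _).mul hc.norm
  have hG0 : ∀ y, 0 ≤ G y := fun y => by positivity
  have hsq : ∀ (y : E N) (a : ℝ),
      ((1 + ‖y‖ ^ 2) ^ (-(s / 2)) * a) ^ 2 = (1 + ‖y‖ ^ 2) ^ (-s) * a ^ 2 := by
    intro y a
    rw [mul_pow, ← Real.rpow_natCast ((1 + ‖y‖ ^ 2) ^ (-(s / 2))), ← Real.rpow_mul (by positivity)]
    congr 2
    push_cast
    ring
  have hN : N2 (fun y => (G y : ℂ)) = FN s ψ := by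
    refine lintegral_congr fun y => ?_
    rw [Complex.norm_real, Real.norm_of_nonneg (hG0 y), hsq]
  have hm : AEStronglyMeasurable (fun y => (G y : ℂ)) volume :=
    (Complex.continuous_ofReal.comp hGc).aestronglyMeasurable
  have hL : MemLp (fun y => (G y : ℂ)) 2 volume := by
    rw [memLp_two_iff_integrable_sq_norm hm]
    exact (lintegral_ofReal_ne_top_iff_integrable (hm.norm.pow 2)
      (Eventually.of_forall fun y => sq_nonneg _)).1
      (hN.trans_lt (((h N ψ hψ).2.2.1 s hs).trans_lt (h N ψ hψ).2.1)).ne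
  have hY := ((h' N k hk').2.2.2.2.1 _ hL).2.1
  have hpt : ∀ ξ : E N, (1 + ‖ξ‖ ^ 2) ^ (-(s / 2)) * ‖𝓕 (fun y => χ y * ψ y) ξ‖ ≤
      2 ^ (s / 2) * ‖Cv k (fun y => (G y : ℂ)) ξ‖ := by
    intro ξ
    have hI : Integrable fun y => (1 + ‖ξ - y‖ ^ 2) ^ (s / 2) * ‖𝓕 χ (ξ - y)‖ * G y := by
      refine (hk.comp_sub_left ξ).mul_bdd (c := ∫ y, ‖ψ y‖) hGc.aestronglyMeasurable
        (Eventually.of_forall fun y => ?_)
      rw [Real.norm_of_nonneg (hG0 y)]
      refine (mul_le_of_le_one_left (norm_nonneg _) ?_).trans (hb y)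
      exact Real.rpow_le_one_of_one_le_of_nonpos (by nlinarith [sq_nonneg ‖y‖]) (by linarith)
    have e1 : Cv k (fun y => (G y : ℂ)) ξ =
        ((∫ y, (1 + ‖ξ - y‖ ^ 2) ^ (s / 2) * ‖𝓕 χ (ξ - y)‖ * G y : ℝ) : ℂ) := by
      rw [← integral_complex_ofReal]
      refine integral_congr_ae (Eventually.of_forall fun y => ?_)
      simp only [hkd, ← Complex.ofReal_mul]
    rw [e1, Complex.norm_real, Real.norm_of_nonneg (integral_nonneg fun y => by positivity),
      fourier_mul hχ hψ hF, ← integral_const_mul]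
    refine (mul_le_mul_of_nonneg_left (norm_integral_le_integral_norm _) (by positivity)).trans ?_
    rw [← integral_const_mul]
    refine integral_mono_of_nonneg (Eventually.of_forall fun y => by positivity) (hI.const_mul _)
      (Eventually.of_forall fun y => ?_)
    have := mul_le_mul_of_nonneg_right (peetre hs ξ y)
      (mul_nonneg (norm_nonneg (𝓕 χ (ξ - y))) (norm_nonneg (𝓕 ψ y)))
    simp only [norm_mul, hG]
    linarith
  calc FN s (fun y => χ y * ψ y)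
      ≤ ∫⁻ ξ, ENNReal.ofReal ((2 ^ (s / 2)) ^ 2) *
          ENNReal.ofReal (‖Cv k (fun y => (G y : ℂ)) ξ‖ ^ 2) := by
        refine lintegral_mono fun ξ => ?_
        rw [← ENNReal.ofReal_mul (by positivity), ← hsq, ← mul_pow]
        exact ENNReal.ofReal_le_ofReal (pow_le_pow_left₀ (by positivity) (hpt ξ) 2)
    _ = ENNReal.ofReal ((2 ^ (s / 2)) ^ 2) * N2 (Cv k fun y => (G y : ℂ)) :=
        lintegral_const_mul' _ _ ENNReal.ofReal_ne_top
    _ ≤ _ := by
        rw [ENNReal.coe_mul, mul_assoc, ← hN]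
        exact mul_le_mul_right hY _

end

end Pool.Agent.MP_fcd29e_an.H29
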